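import Pool.Agent.Helper24.AL.St

set_option autoImplicit false

namespace Pool.Agent.Helper91.AL

open Pool.Agent.Helper24.AL
open Pool.Agent.Helper56.SW (Nq)

private theorem key3 (c H : ℝ) :
    c ^ ((2 * ((3 : ℕ) : ℝ) - 6) / 3) * H ^ (2 * ((3 : ℕ) : ℝ) / 3) = H ^ 2 := by
  have h1 : ((2 * ((3 : ℕ) : ℝ) - 6) / 3) = 0 := by norm_num
  have h2 : (2 * ((3 : ℕ) : ℝ) / 3) = ((2 : ℕ) : ℝ) := by norm_num
  rw [h1, h2, Real.rpow_zero, Real.rpow_natCast, one_mul]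

private theorem keyr (r : ℕ) (c H1 H2 : ℝ) (hr : 3 ≤ r) (hc : 1 ≤ c) (h1 : 1 ≤ H1)
    (h2 : 1 ≤ H2) (h : c ^ (2 * r + 3) ≤ (H1 ^ 3 * H2) ^ r) :
    c ^ ((2 * (r : ℝ) - 6) / 3) * H2 ^ (2 * (r : ℝ) / 3) ≤ (H1 * H2) ^ r / c ^ 3 := by
  have hc0 : 0 < c := by linarith
  have h10 : 0 < H1 := by linarith
  have h20 : 0 < H2 := by linarith
  have hR : 0 ≤ (H1 * H2) ^ r / c ^ 3 := by positivity
  refine le_of_pow_le_pow_left₀ (n := 3) (by norm_num) hR ?_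
  obtain ⟨s, rfl⟩ : ∃ s, r = s + 3 := ⟨r - 3, by omega⟩
  have e1 : (c ^ ((2 * ((s + 3 : ℕ) : ℝ) - 6) / 3)) ^ 3 = c ^ (2 * s) := by
    rw [← Real.rpow_natCast, ← Real.rpow_mul hc0.le, ← Real.rpow_natCast]
    congr 1
    push_cast
    ring
  have e2 : (H2 ^ (2 * ((s + 3 : ℕ) : ℝ) / 3)) ^ 3 = H2 ^ (2 * (s + 3)) := by
    rw [← Real.rpow_natCast, ← Real.rpow_mul h20.le, ← Real.rpow_natCast]
    congr 1
    push_cast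
    ring
  rw [mul_pow, e1, e2, div_pow, le_div_iff₀ (by positivity)]
  calc c ^ (2 * s) * H2 ^ (2 * (s + 3)) * (c ^ 3) ^ 3
      = c ^ (2 * (s + 3) + 3) * H2 ^ (2 * (s + 3)) := by ring
    _ ≤ (H1 ^ 3 * H2) ^ (s + 3) * H2 ^ (2 * (s + 3)) := by gcongr
    _ = ((H1 * H2) ^ (s + 3)) ^ 3 := by ring

theorem hEND (hFIN : StFIN) : StEND := by
  intro r K ε hr hK hε
  obtain ⟨C, hC, hC'⟩ := hFIN r K ε hr hK hε
  refine ⟨C, hC, fun c hc => ?_⟩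
  obtain ⟨X, hX, hX'⟩ := hC' c hc
  refine ⟨X, hX, fun a₁ a₂ ha H₁ H₂ h1 h2 h3 => ?_⟩
  have hmain := hX' a₁ a₂ ha H₁ H₂ h1 h2 h3
  refine ⟨hmain, fun hcase => ?_⟩
  have hcR : (1 : ℝ) ≤ (c : ℝ) := by exact_mod_cast hc
  have hc0 : (0 : ℝ) < (c : ℝ) := by linarith
  have h20 : 1 ≤ H₂ := le_trans h1 h2
  have hp1 : 0 ≤ H₂ ^ (r - 1) := by positivity
  have hp2 : 0 ≤ (H₁ * H₂) ^ r / (c : ℝ) ^ 3 := by positivity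
  have hA : (H₁ * H₂) ^ r / (c : ℝ) ^ 3 +
      (c : ℝ) ^ ((2 * (r : ℝ) - 6) / 3) * H₂ ^ (2 * (r : ℝ) / 3) ≤
      2 * (H₂ ^ (r - 1) + (H₁ * H₂) ^ r / (c : ℝ) ^ 3) := by
    rcases hcase with h | h
    · subst h
      rw [key3 (c : ℝ) H₂]
      have hp1' : 0 ≤ H₂ ^ 2 := by positivity
      have e : (3 - 1 : ℕ) = 2 := rfl
      rw [e]
      linarith
    · have hk := keyr r (c : ℝ) H₁ H₂ hr hcR h1 h20 h
      linarith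
  have hCc : 0 ≤ C * (c : ℝ) ^ ε := by positivity
  calc (Nq (2 * r) c a₁ a₂ H₁ H₂ : ℝ) ≤ _ := hmain
    _ ≤ C * (c : ℝ) ^ ε * (2 * (H₂ ^ (r - 1) + (H₁ * H₂) ^ r / (c : ℝ) ^ 3)) :=
        mul_le_mul_of_nonneg_left hA hCc
    _ = 2 * C * (c : ℝ) ^ ε * (H₂ ^ (r - 1) + (H₁ * H₂) ^ r / (c : ℝ) ^ 3) := by ring

end Pool.Agent.Helper91.AL
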